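import Pool.Agent.Q27.SMF.Real

/-!
# The tower of the finite dimensional subalgebras of a locally finite division algebra
-/

set_option autoImplicit false

namespace Q27.SMF

open Q27.LFA (Tower FreeOver)

variable {F K : Type} [Field F] [DivisionRing K] [Algebra F K]

theorem div_over {L L' : Subalgebra F K} (hL : FiniteDimensional F L)
    (hL' : FiniteDimensional F L') (h : L ≤ L') : FreeOver L L' := by
  let _ : DivisionRing L := divisionRingOfFiniteDimensional F L
  let ι : L →+* L' := (Subalgebra.inclusion h).toRingHom
  let _ : Module L L' := Module.compHom L' ι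
  have hsm : ∀ (c : L) (y : L'), ((c • y : L') : K) = (c : K) * (y : K) := fun c y => rfl
  have hst : IsScalarTower F L L' := by
    refine ⟨fun t c y => ?_⟩
    apply Subtype.ext
    show ((t • c : L) : K) * (y : K) = t • ((c : K) * (y : K))
    rw [← smul_mul_assoc]
    rfl
  have hfin : Module.Finite L L' := Module.Finite.of_restrictScalars_finite F L L'
  let b := Module.finBasis L L'
  refine ⟨Module.finrank L L', fun i => (b i : K), fun i => (b i).2, ?_⟩
  intro y hy
  let y' : L' := ⟨y, hy⟩
  have hval : ∀ c : Fin (Module.finrank L L') → L, ((∑ i, c i • b i : L') : K) =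
      ∑ i, (c i : K) * (b i : K) := by
    intro c
    have h1 : ((∑ i, c i • b i : L') : K) = ∑ i, ((c i • b i : L') : K) := by push_cast; rfl
    rw [h1]
    rfl
  refine ⟨fun i => b.repr y' i, ?_, ?_⟩
  · show ∑ i, ((b.repr y' i : L) : K) * (b i : K) = y
    rw [← hval, b.sum_repr]
  · intro d hd
    have h2 : ∑ i, d i • b i = y' := by
      apply Subtype.ext
      rw [hval]
      exact hd
    funext i
    rw [← h2, b.repr_sum_self]

/-- the tower of the finite dimensional subalgebras -/
theorem div_tower (hloc : ∀ s : Set K, s.Finite → ∃ L : Subalgebra F K, s ⊆ (L : Set K) ∧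
    FiniteDimensional F L) : Tower {B : Subalgebra F K | FiniteDimensional F B} := by
  refine ⟨?_, ?_, ?_, ?_⟩
  · intro s hs
    obtain ⟨L, h1, h2⟩ := hloc s hs
    exact ⟨L, h2, h1⟩
  · intro L hL
    exact hL
  · intro L hL
    exact (inferInstance : Module.Free F L)
  · intro L hL L' hL' h
    exact div_over hL hL' h

theorem div_map (α : K ≃ₐ[F] K) (L : Subalgebra F K) (hL : FiniteDimensional F L) :
    FiniteDimensional F (L.map (α : K →ₐ[F] K)) :=
  Module.Finite.equiv (α.subalgebraMap L).toLinearEquiv

end Q27.SMF
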