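import Pool.Agent.Q27.SMF.Mat

/-!
# Semilinear actions: the finitary linear elements
-/

set_option autoImplicit false

namespace Q27.SMF

open Matrix
open Pool.Agent.Y110.FJ (ClosedE Realized)
open Q30.FJ (ClosedOver)

variable {F K V G : Type} [Field F] [DivisionRing K] [Algebra F K] [AddCommGroup V] [Module K V]
  [Group G] [DistribMulAction G V]

theorem real (C : ∀ (G : Type) [Group G], Prop) (hC : ClosedE C)
    (hF : ∀ m : ℕ, C (GL (Fin m) F))
    (hloc : ∀ s : Set K, s.Finite → ∃ L : Subalgebra F K, s ⊆ (L : Set K) ∧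
      FiniteDimensional F L)
    (hsemi : ∀ g : G, ∃ α : K ≃ₐ[F] K, ∀ (a : K) (v : V), g • (a • v) = α a • (g • v))
    (N : Subgroup G) [N.Normal] (hlin : ∀ n ∈ N, ∀ (a : K) (v : V), n • (a • v) = a • (n • v))
    (hfaith : ∀ n ∈ N, (∀ v : V, n • v = v) → n = 1)
    (hfin : ∀ n ∈ N, ∃ W : Submodule K V, W.FG ∧ ∀ v : V, n • v - v ∈ W)
    (g : G) (E : Set G) (hE : E.Finite) (hEN : E ⊆ N) : Realized C g E := by
  classical
  obtain ⟨α, hα⟩ := hsemi g
  obtain ⟨E', hE'def⟩ : ∃ E' : Set G, E' = E ∪ (fun x => g * x * g⁻¹) '' E := ⟨_, rfl⟩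
  have hEE' : ∀ x ∈ E, x ∈ E' := fun x hx => by rw [hE'def]; exact Or.inl hx
  have hgE' : ∀ x ∈ E, g * x * g⁻¹ ∈ E' := fun x hx => by rw [hE'def]; exact Or.inr ⟨x, hx, rfl⟩
  have hE'fin : Finite E' := by
    rw [hE'def]
    exact (hE.union (hE.image _)).to_subtype
  have hE'N : E' ⊆ N := by
    rw [hE'def]
    rintro x (hx | ⟨y, hy, rfl⟩)
    · exact hEN hx
    · exact Subgroup.Normal.conj_mem inferInstance y (hEN hy) g
  have hHN : Subgroup.closure E' ≤ N := (Subgroup.closure_le _).2 hE'N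
  -- the maps
  let lm : ∀ n ∈ N, V →ₗ[K] V := fun n hn =>
    { toFun := fun v => n • v
      map_add' := fun v w => smul_add n v w
      map_smul' := fun a v => hlin n hn a v }
  obtain ⟨W0, hW0, hr, ht⟩ := exists_fin (fun i : E' => lm i (hE'N i.2) - LinearMap.id)
    (fun i => by
      obtain ⟨W, hW, h1⟩ := hfin i (hE'N i.2)
      exact ⟨W, hW, fun v => h1 v⟩)
  have hdec : ∀ v : V, ∃ w ∈ W0, ∃ k : V, (∀ i ∈ E', i • k = k) ∧ w + k = v := by
    intro v
    have h1 : v ∈ W0 ⊔ ⨅ i : E', (lm i (hE'N i.2) - LinearMap.id).ker := by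
      rw [ht]; exact Submodule.mem_top
    obtain ⟨w, hw, k, hk, h⟩ := Submodule.mem_sup.1 h1
    refine ⟨w, hw, k, fun i hi => ?_, h⟩
    rw [Submodule.mem_iInf] at hk
    exact sub_eq_zero.1 (LinearMap.mem_ker.1 (hk ⟨i, hi⟩))
  have hP : ∀ h ∈ Subgroup.closure E', (∀ v : V, h • v - v ∈ W0) ∧
      ∀ k : V, (∀ i ∈ E', i • k = k) → h • k = k := by
    intro h hh
    induction hh using Subgroup.closure_induction with
    | mem x hx =>
      exact ⟨fun v => hr ⟨x, hx⟩ v, fun k hk => hk x hx⟩
    | one =>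
      refine ⟨fun v => ?_, fun k _ => one_smul _ _⟩
      rw [one_smul, sub_self]
      exact W0.zero_mem
    | mul x y _ _ hx hy =>
      refine ⟨fun v => ?_, fun k hk => ?_⟩
      · have h1 := W0.add_mem (hx.1 (y • v)) (hy.1 v)
        rwa [sub_add_sub_cancel, ← mul_smul] at h1
      · rw [mul_smul, hy.2 k hk, hx.2 k hk]
    | inv x _ hx =>
      refine ⟨fun v => ?_, fun k hk => ?_⟩
      · have h1 := hx.1 (x⁻¹ • v)
        rw [smul_inv_smul] at h1
        have h2 := W0.neg_mem h1
        rwa [neg_sub] at h2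
      · rw [inv_smul_eq_iff, hx.2 k hk]
  -- the space
  have hW0f : FiniteDimensional K W0 := Module.Finite.of_fg hW0
  let p := Module.finrank K W0
  let b0 : Module.Basis (Fin p) K W0 := Module.finBasis K W0
  let gW : Submodule K V := Submodule.span K (Set.range fun i => g • (b0 i : V))
  have hcoord : ∀ (w : V) (hw : w ∈ W0), w = ∑ i, (b0.repr ⟨w, hw⟩ i) • (b0 i : V) := by
    intro w hw
    have h2 := congrArg Subtype.val (b0.sum_repr ⟨w, hw⟩)
    push_cast at h2
    exact h2.symm
  have hgW : ∀ w ∈ W0, g • w ∈ gW := by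
    intro w hw
    rw [hcoord w hw, Finset.smul_sum]
    refine Submodule.sum_mem _ fun i _ => ?_
    rw [hα]
    exact Submodule.smul_mem _ _ (Submodule.subset_span ⟨i, rfl⟩)
  let W : Submodule K V := W0 ⊔ gW
  have hW0W : W0 ≤ W := le_sup_left
  have hgWW : gW ≤ W := le_sup_right
  have hWf : FiniteDimensional K W := by
    have h1 : W.FG := hW0.sup (Submodule.fg_span (Set.finite_range _))
    exact Module.Finite.of_fg h1
  have hst : ∀ h ∈ Subgroup.closure E', ∀ w ∈ W, h • w ∈ W := by
    intro h hh w hw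
    have h1 := W.add_mem (hW0W ((hP h hh).1 w)) hw
    rwa [sub_add_cancel] at h1
  have hst0 : ∀ h ∈ Subgroup.closure E', ∀ w ∈ W0, h • w ∈ W0 := by
    intro h hh w hw
    have h1 := W0.add_mem ((hP h hh).1 w) hw
    rwa [sub_add_cancel] at h1
  let ψ : ↥(Subgroup.closure E') →* Module.End K W :=
    { toFun := fun h =>
        { toFun := fun w => ⟨(h : G) • (w : V), hst h h.2 w w.2⟩
          map_add' := fun v w => Subtype.ext (smul_add (h : G) (v : V) (w : V))
          map_smul' := fun a v => Subtype.ext (hlin h (hHN h.2) a v) }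
      map_one' := by
        apply LinearMap.ext
        intro w
        apply Subtype.ext
        exact one_smul G (w : V)
      map_mul' := fun x y => by
        apply LinearMap.ext
        intro w
        apply Subtype.ext
        exact mul_smul (x : G) (y : G) (w : V) }
  have hψ : ∀ (h : ↥(Subgroup.closure E')) (w : W), ((ψ h w : W) : V) = (h : G) • (w : V) :=
    fun _ _ => rfl
  have hψi : Function.Injective ψ := by
    rw [injective_iff_map_eq_one]
    intro h hh
    apply Subtype.ext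
    refine hfaith h (hHN h.2) fun v => ?_
    obtain ⟨w, hw, k, hk, rfl⟩ := hdec v
    have h2 : (h : G) • w = w := by
      have h3 := hψ h ⟨w, hW0W hw⟩
      rw [hh] at h3
      exact h3.symm
    rw [smul_add, h2, (hP h h.2).2 k hk]
  -- the two decompositions
  let A : Submodule K W := W0.comap W.subtype
  let gb : Fin p → W := fun i => ⟨g • (b0 i : V), hgWW (Submodule.subset_span ⟨i, rfl⟩)⟩
  let A' : Submodule K W := Submodule.span K (Set.range gb)
  let K1 : Submodule K W :=
    { carrier := {w | ∀ e ∈ E, e • (w : V) = w}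
      add_mem' := fun {v w} hv hw e he => by
        show e • ((v : V) + (w : V)) = (v : V) + (w : V)
        rw [smul_add, hv e he, hw e he]
      zero_mem' := fun e _ => smul_zero e
      smul_mem' := fun a v hv e he => by
        show e • (a • (v : V)) = a • (v : V)
        rw [hlin e (hEN he), hv e he] }
  let K2 : Submodule K W :=
    { carrier := {w | ∀ e ∈ E, (g * e * g⁻¹) • (w : V) = w}
      add_mem' := fun {v w} hv hw e he => by
        show (g * e * g⁻¹) • ((v : V) + (w : V)) = (v : V) + (w : V)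
        rw [smul_add, hv e he, hw e he]
      zero_mem' := fun e _ => smul_zero _
      smul_mem' := fun a v hv e he => by
        show (g * e * g⁻¹) • (a • (v : V)) = a • (v : V)
        rw [hlin _ (hE'N (hgE' e he)), hv e he] }
  have hAK : A ⊔ K1 = ⊤ := by
    rw [eq_top_iff]
    rintro ⟨v, hv⟩ _
    obtain ⟨w, hw, k, hk, h⟩ := hdec v
    have hkW : k ∈ W := by
      have h1 := W.sub_mem hv (hW0W hw)
      rwa [← h, add_sub_cancel_left] at h1
    exact Submodule.mem_sup.2 ⟨⟨w, hW0W hw⟩, hw, ⟨k, hkW⟩, fun e he => hk e (hEE' e he),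
      Subtype.ext h⟩
  have hspan : ∀ w : W, (w : V) ∈ gW → w ∈ A' := by
    rintro ⟨w, hw⟩ hwg
    have h1 : gW ≤ A'.map W.subtype := by
      refine Submodule.span_le.2 ?_
      rintro _ ⟨i, rfl⟩
      exact ⟨gb i, Submodule.subset_span ⟨i, rfl⟩, rfl⟩
    obtain ⟨y, hy, hyw⟩ := h1 hwg
    have h2 : y = ⟨w, hw⟩ := Subtype.ext hyw
    rwa [← h2]
  have hAK' : A' ⊔ K2 = ⊤ := by
    rw [eq_top_iff]
    rintro ⟨v, hv⟩ _
    obtain ⟨w, hw, k, hk, h⟩ := hdec (g⁻¹ • v)
    have h' : g • w + g • k = v := by rw [← smul_add, h, smul_inv_smul]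
    have hkW : g • k ∈ W := by
      have h1 := W.sub_mem hv (hgWW (hgW w hw))
      rwa [← h', add_sub_cancel_left] at h1
    refine Submodule.mem_sup.2 ⟨⟨g • w, hgWW (hgW w hw)⟩, hspan _ (hgW w hw), ⟨g • k, hkW⟩,
      fun e he => ?_, Subtype.ext h'⟩
    show (g * e * g⁻¹) • (g • k) = g • k
    rw [mul_smul, inv_smul_smul, mul_smul, hk e (hEE' e he)]
  obtain ⟨C1, hC1, hc1⟩ := exists_compl hAK
  obtain ⟨C2, hC2, hc2⟩ := exists_compl hAK'
  let bA : Module.Basis (Fin p) K A := b0.map (Submodule.comapSubtypeEquivOfLe hW0W).symm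
  have hbA : ∀ i, ((bA i : W) : V) = b0 i := by
    intro i
    rfl
  have hli : LinearIndependent K gb := by
    rw [Fintype.linearIndependent_iff]
    intro c hc i
    have h1 : ∑ i, c i • (g • (b0 i : V)) = 0 := by
      have h2 := congrArg Subtype.val hc
      push_cast at h2
      exact h2
    have h2 : g • (∑ i, α.symm (c i) • (b0 i : V)) = 0 := by
      rw [Finset.smul_sum, ← h1]
      refine Finset.sum_congr rfl fun i _ => ?_
      rw [hα, α.apply_symm_apply]
    have h3 : ∑ i, α.symm (c i) • (b0 i : V) = 0 := by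
      rwa [smul_eq_zero_iff_eq] at h2
    have h4 : ∑ i, α.symm (c i) • b0 i = 0 := by
      apply Subtype.ext
      push_cast
      exact h3
    have h5 := Fintype.linearIndependent_iff.1 b0.linearIndependent _ h4 i
    rwa [map_eq_zero_iff _ α.symm.injective] at h5
  let bA' : Module.Basis (Fin p) K A' := Module.Basis.span hli
  have hbA' : ∀ i, ((bA' i : W) : V) = g • (b0 i : V) := by
    intro i
    exact congrArg (fun z : A' => ((z : W) : V)) (Module.Basis.span_apply hli i)
  have hdim : Module.finrank K C1 = Module.finrank K C2 := by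
    have h1 := Submodule.finrank_add_eq_of_isCompl hc1
    have h2 := Submodule.finrank_add_eq_of_isCompl hc2
    have h3 : Module.finrank K A = p := by
      rw [Module.finrank_eq_card_basis bA, Fintype.card_fin]
    have h4 : Module.finrank K A' = p := by
      rw [Module.finrank_eq_card_basis bA', Fintype.card_fin]
    omega
  let q := Module.finrank K C1
  let c1 : Module.Basis (Fin q) K C1 := Module.finBasis K C1
  let c2 : Module.Basis (Fin q) K C2 := Module.finBasisOfFinrankEq K C2 hdim.symm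
  let b : Module.Basis (Fin (p + q)) K W :=
    ((bA.prod c1).map (Submodule.prodEquivOfIsCompl A C1 hc1)).reindex finSumFinEquiv
  let b' : Module.Basis (Fin (p + q)) K W :=
    ((bA'.prod c2).map (Submodule.prodEquivOfIsCompl A' C2 hc2)).reindex finSumFinEquiv
  have hbl : ∀ i, b (finSumFinEquiv (Sum.inl i)) = bA i := by
    intro i
    simp [b]
  have hbr : ∀ i, b (finSumFinEquiv (Sum.inr i)) = c1 i := by
    intro i
    simp [b]
  have hbl' : ∀ i, b' (finSumFinEquiv (Sum.inl i)) = bA' i := by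
    intro i
    simp [b']
  have hbr' : ∀ i, b' (finSumFinEquiv (Sum.inr i)) = c2 i := by
    intro i
    simp [b']
  -- the semilinear map
  let H0 : W →+ W :=
    { toFun := fun w => ∑ k, α (b.repr w k) • b' k
      map_zero' := by simp
      map_add' := fun v w => by
        rw [← Finset.sum_add_distrib]
        refine Finset.sum_congr rfl fun k _ => ?_
        rw [map_add, Finsupp.add_apply, map_add, add_smul] }
  have hH0 : ∀ w, H0 w = ∑ k, α (b.repr w k) • b' k := fun w => rfl
  have hH0s : ∀ (a : K) (w : W), H0 (a • w) = α a • H0 w := by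
    intro a w
    rw [hH0, hH0, Finset.smul_sum]
    refine Finset.sum_congr rfl fun k _ => ?_
    rw [map_smul, Finsupp.smul_apply, smul_eq_mul, map_mul, mul_smul]
  have hH0b : ∀ i, H0 (b i) = b' i := by
    intro i
    rw [hH0, Finset.sum_eq_single i]
    · rw [b.repr_self, Finsupp.single_eq_same, map_one, one_smul]
    · intro k _ hk
      rw [b.repr_self, Finsupp.single_eq_of_ne hk, map_zero, zero_smul]
    · intro h
      exact absurd (Finset.mem_univ i) h
  have hH0W0 : ∀ w : W, (w : V) ∈ W0 → ((H0 w : W) : V) = g • (w : V) := by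
    intro w hw
    have h1 : w = ∑ i, (b0.repr ⟨w, hw⟩ i) • b (finSumFinEquiv (Sum.inl i)) := by
      apply Subtype.ext
      push_cast
      simp only [hbl, hbA]
      exact hcoord w hw
    have h3 : H0 w = ∑ i, α (b0.repr ⟨w, hw⟩ i) • b' (finSumFinEquiv (Sum.inl i)) := by
      conv_lhs => rw [h1, map_sum]
      refine Finset.sum_congr rfl fun i _ => ?_
      rw [hH0s, hH0b]
    have h4 : (w : V) = ∑ i, (b0.repr ⟨w, hw⟩ i) • (b0 i : V) := hcoord w hw
    rw [h3]
    conv_rhs => rw [h4, Finset.smul_sum]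
    push_cast
    refine Finset.sum_congr rfl fun i _ => ?_
    rw [hbl', hbA', hα]
  -- the realization
  subst hE'def
  refine tower_real hC hF _ (div_tower hloc) (p + q) g E hE (rowRep b ψ) (rowRep_inj b ψ hψi) α
    (fun B hB => div_map α B hB) (trans b b')⁻¹ ?_
  intro x y hx hy
  refine trans_rel b b' ψ α.toRingEquiv x y ?_
  have hyx : ((y⁻¹ : ↥(Subgroup.closure (E ∪ (fun x => g * x * g⁻¹) '' E))) : G) =
      g * (x : G)⁻¹ * g⁻¹ := by
    rw [Subgroup.coe_inv, hy]
    group
  have key : ∀ i, ψ y⁻¹ (b' i) = H0 (ψ x⁻¹ (b i)) := by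
    intro i
    apply Subtype.ext
    rw [hψ, hyx]
    obtain ⟨j, rfl⟩ := finSumFinEquiv.surjective i
    rcases j with j | j
    · rw [hH0W0 _ (hst0 _ (x⁻¹).2 _ (by rw [hbl, hbA]; exact (b0 j).2)), hψ, hbl', hbA', hbl, hbA,
        mul_smul, inv_smul_smul, mul_smul]
      rfl
    · have h1 : ψ x⁻¹ (b (finSumFinEquiv (Sum.inr j))) = b (finSumFinEquiv (Sum.inr j)) := by
        apply Subtype.ext
        rw [hψ, hbr, Subgroup.coe_inv, inv_smul_eq_iff]
        exact (hC1 (c1 j).2 x hx).symm
      rw [h1, hH0b, hbr']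
      have h2 := hC2 (c2 j).2 x hx
      have h3 : g * (x : G)⁻¹ * g⁻¹ = (g * (x : G) * g⁻¹)⁻¹ := by group
      rw [h3, inv_smul_eq_iff]
      exact h2.symm
  intro i
  rw [key i, hH0]
  rfl

/-- **semilinear actions over locally finite division algebras** -/
theorem main (C D : ∀ (G : Type) [Group G], Prop) (hC : ClosedE C) (hD : ClosedOver C D)
    (hF : ∀ m : ℕ, C (GL (Fin m) F))
    (hloc : ∀ s : Set K, s.Finite → ∃ L : Subalgebra F K, s ⊆ (L : Set K) ∧
      FiniteDimensional F L)
    (hsemi : ∀ g : G, ∃ α : K ≃ₐ[F] K, ∀ (a : K) (v : V), g • (a • v) = α a • (g • v))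
    (N : Subgroup G) [N.Normal] (hlin : ∀ n ∈ N, ∀ (a : K) (v : V), n • (a • v) = a • (n • v))
    (hfaith : ∀ n ∈ N, (∀ v : V, n • v = v) → n = 1)
    (hfin : ∀ n ∈ N, ∃ W : Submodule K V, W.FG ∧ ∀ v : V, n • v - v ∈ W)
    (hQ : D (G ⧸ N)) : D G :=
  Q30.FJ.crit_over hC hD G N hQ fun g E hE hEN =>
    Or.inl (real C hC hF hloc hsemi N hlin hfaith hfin g E hE hEN)

end Q27.SMF
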