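import Pool.Agent.Q27.SMF.Div

/-!
# Matrices over division rings, and the linear algebra of finitary maps
-/

set_option autoImplicit false

namespace Q27.SMF

open Matrix

section mat

variable {K W : Type} [DivisionRing K] [AddCommGroup W] [Module K W] {n : ℕ}

/-- rows of coordinates -/
noncomputable def rows (b : Module.Basis (Fin n) K W) (f : Fin n → W) : Matrix (Fin n) (Fin n) K :=
  fun i j => b.repr (f i) j

theorem rows_self (b : Module.Basis (Fin n) K W) : rows b (fun i => b i) = 1 := by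
  ext i j
  show b.repr (b i) j = _
  rw [b.repr_self, Matrix.one_apply, Finsupp.single_apply]

theorem rows_mul (b b' : Module.Basis (Fin n) K W) (ψ : Module.End K W) (f : Fin n → W) :
    rows b' f * rows b (fun i => ψ (b' i)) = rows b (fun i => ψ (f i)) := by
  ext i j
  rw [Matrix.mul_apply]
  show ∑ k, b'.repr (f i) k * b.repr (ψ (b' k)) j = b.repr (ψ (f i)) j
  conv_rhs => rw [← b'.sum_repr (f i), map_sum, map_sum, Finsupp.finsetSum_apply]
  refine Finset.sum_congr rfl fun k _ => ?_
  rw [map_smul, map_smul, Finsupp.smul_apply, smul_eq_mul]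

/-- the matrix representation on row vectors -/
noncomputable def rowRep {H : Type} [Group H] (b : Module.Basis (Fin n) K W) (ψ : H →* Module.End K W) :
    H →* (Matrix (Fin n) (Fin n) K)ˣ :=
  MonoidHom.mk' (fun h => ⟨rows b (fun i => ψ h⁻¹ (b i)), rows b (fun i => ψ h (b i)), by
    have h1 := rows_mul b b (ψ h) (fun i => ψ h⁻¹ (b i))
    rw [h1]
    have h2 : (fun i => ψ h (ψ h⁻¹ (b i))) = fun i => b i := by
      funext i
      rw [← Module.End.mul_apply, ← map_mul, mul_inv_cancel, map_one]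
      rfl
    rw [h2, rows_self], by
    have h1 := rows_mul b b (ψ h⁻¹) (fun i => ψ h (b i))
    rw [h1]
    have h2 : (fun i => ψ h⁻¹ (ψ h (b i))) = fun i => b i := by
      funext i
      rw [← Module.End.mul_apply, ← map_mul, inv_mul_cancel, map_one]
      rfl
    rw [h2, rows_self]⟩) (by
    intro x y
    apply Units.ext
    show rows b (fun i => ψ (x * y)⁻¹ (b i)) =
      rows b (fun i => ψ x⁻¹ (b i)) * rows b (fun i => ψ y⁻¹ (b i))
    rw [rows_mul b b (ψ y⁻¹) (fun i => ψ x⁻¹ (b i))]
    congr 1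
    funext i
    rw [_root_.mul_inv_rev, map_mul]
    rfl)

theorem rowRep_val {H : Type} [Group H] (b : Module.Basis (Fin n) K W) (ψ : H →* Module.End K W)
    (h : H) : (rowRep b ψ h : Matrix (Fin n) (Fin n) K) = rows b (fun i => ψ h⁻¹ (b i)) := rfl

theorem rowRep_inj {H : Type} [Group H] (b : Module.Basis (Fin n) K W) (ψ : H →* Module.End K W)
    (hψ : Function.Injective ψ) : Function.Injective (rowRep b ψ) := by
  rw [injective_iff_map_eq_one]
  intro h hh
  have h1 : rows b (fun i => ψ h⁻¹ (b i)) = 1 := congrArg Units.val hh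
  have h2 : ψ h⁻¹ = 1 := by
    refine b.ext fun i => ?_
    apply b.repr.injective
    ext j
    have h3 := congrFun (congrFun h1 i) j
    rw [← rows_self b] at h3
    exact h3
  rw [← map_one ψ] at h2
  exact inv_eq_one.1 (hψ h2)

/-- the transition matrix -/
noncomputable def trans (b b' : Module.Basis (Fin n) K W) : (Matrix (Fin n) (Fin n) K)ˣ :=
  ⟨rows b (fun i => b' i), rows b' (fun i => b i), by
    have h1 := rows_mul b' b 1 (fun i => b' i)
    have h2 : rows b' (fun i => (1 : Module.End K W) (b' i)) = 1 := rows_self b'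
    rw [h2] at h1
    exact h1, by
    have h1 := rows_mul b b' 1 (fun i => b i)
    have h2 : rows b (fun i => (1 : Module.End K W) (b i)) = 1 := rows_self b
    rw [h2] at h1
    exact h1⟩

theorem trans_rel {H : Type} [Group H] (b b' : Module.Basis (Fin n) K W) (ψ : H →* Module.End K W)
    (α : K ≃+* K) (x y : H)
    (key : ∀ i, ψ y⁻¹ (b' i) = ∑ k, α (b.repr (ψ x⁻¹ (b i)) k) • b' k) :
    (rowRep b ψ y : Matrix (Fin n) (Fin n) K) *
      (((trans b b')⁻¹ : (Matrix (Fin n) (Fin n) K)ˣ) : Matrix (Fin n) (Fin n) K) =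
    (((trans b b')⁻¹ : (Matrix (Fin n) (Fin n) K)ˣ) : Matrix (Fin n) (Fin n) K) *
      ((rowRep b ψ x : Matrix (Fin n) (Fin n) K).map α) := by
  rw [Units.eq_inv_mul_iff_mul_eq, ← mul_assoc, Units.mul_inv_eq_iff_eq_mul]
  show rows b (fun i => b' i) * rows b (fun i => ψ y⁻¹ (b i)) =
    (rows b (fun i => ψ x⁻¹ (b i))).map α * rows b (fun i => b' i)
  rw [rows_mul b b (ψ y⁻¹) (fun i => b' i)]
  ext i l
  show b.repr (ψ y⁻¹ (b' i)) l = _
  rw [key i, Matrix.mul_apply, map_sum, Finsupp.finsetSum_apply]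
  refine Finset.sum_congr rfl fun k _ => ?_
  rw [map_smul, Finsupp.smul_apply, smul_eq_mul]
  rfl

end mat

section lin

variable {K V : Type} [DivisionRing K] [AddCommGroup V] [Module K V]

/-- a finite dimensional subspace for a finite set of maps of finite rank -/
theorem exists_fin {ι : Type} [Finite ι] (u : ι → (V →ₗ[K] V))
    (hu : ∀ i, ∃ W : Submodule K V, W.FG ∧ ∀ v, u i v ∈ W) :
    ∃ W : Submodule K V, W.FG ∧ (∀ i v, u i v ∈ W) ∧ W ⊔ (⨅ i, (u i).ker) = ⊤ := by
  have hr : ∀ i, ((u i).range).FG := by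
    intro i
    obtain ⟨W, hW, h1⟩ := hu i
    have h2 : (u i).range ≤ W := by
      rintro _ ⟨v, rfl⟩
      exact h1 v
    have h3 : FiniteDimensional K W := Module.Finite.of_fg hW
    have h4 : FiniteDimensional K (u i).range := Submodule.finiteDimensional_of_le h2
    exact Module.Finite.iff_fg.1 h4
  have h1 : (⨅ i, (u i).ker).CoFG := by
    have h2 : (sInf (Set.range fun i => (u i).ker)).CoFG := by
      refine Submodule.CoFG.sInf_of_finite (Set.finite_range _) ?_
      rintro _ ⟨i, rfl⟩
      exact Submodule.range_fg_iff_ker_cofg.1 (hr i)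
    exact h2
  obtain ⟨W', hW'⟩ := Submodule.exists_isCompl (⨅ i, (u i).ker)
  have h2 : W'.FG := Submodule.CoFG.fg_of_isCompl hW' h1
  have h3 : (⨆ i, (u i).range).FG := Submodule.fg_iSup _ fun i => hr i
  refine ⟨W' ⊔ ⨆ i, (u i).range, h2.sup h3, ?_, ?_⟩
  · intro i v
    exact ((le_iSup (fun i => (u i).range) i).trans le_sup_right) ⟨v, rfl⟩
  · rw [eq_top_iff, ← hW'.sup_eq_top]
    exact sup_le le_sup_right (le_sup_left.trans le_sup_left)

/-- complements adapted to a subspace -/
theorem exists_compl {A B : Submodule K V} (h : A ⊔ B = ⊤) : ∃ C' ≤ B, IsCompl A C' := by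
  obtain ⟨C', h1, h2⟩ := IsModularLattice.exists_disjoint_and_sup_eq
    (inf_le_right : A ⊓ B ≤ B)
  have hle : C' ≤ B := by rw [← h2]; exact le_sup_right
  refine ⟨C', hle, ?_, ?_⟩
  · rw [disjoint_iff, eq_bot_iff]
    rw [disjoint_iff] at h1
    rw [← h1]
    exact le_inf (le_inf inf_le_left (inf_le_right.trans hle)) inf_le_right
  · rw [codisjoint_iff, eq_top_iff, ← h, ← h2]
    exact sup_le le_sup_left (sup_le (inf_le_left.trans le_sup_left) le_sup_right)

end lin

end Q27.SMF
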