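import Pool.Agent.Q27.LFA.Act

/-!
# Realization over towers, local version
-/

set_option autoImplicit false

namespace Q27.SMF

open Matrix
open Pool.Agent.Y110.FJ (ClosedE Realized)
open Q27.LFA (Tower EB act act_apply act_inj gl_free fin_sub exists_theta FreeOver)

variable {R A : Type} [CommRing R] [Ring A] [Algebra R A]

/-- **realization** -/
theorem tower_real {C : ∀ (G : Type) [Group G], Prop} (hC : ClosedE C) [Nontrivial R]
    (hR : ∀ m : ℕ, C (GL (Fin m) R)) (T : Set (Subalgebra R A)) (hT : Tower T)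
    (n : ℕ) {G : Type} [Group G] (g : G) (E : Set G) (hE : E.Finite)
    (ρ : ↥(Subgroup.closure (E ∪ (fun x => g * x * g⁻¹) '' E)) →* (Matrix (Fin n) (Fin n) A)ˣ)
    (hρ : Function.Injective ρ) (α : A ≃ₐ[R] A) (hα : ∀ B ∈ T, B.map (α : A →ₐ[R] A) ∈ T)
    (u : (Matrix (Fin n) (Fin n) A)ˣ)
    (hu : ∀ x y : ↥(Subgroup.closure (E ∪ (fun x => g * x * g⁻¹) '' E)), (x : G) ∈ E →
      (y : G) = g * x * g⁻¹ → (ρ y : Matrix (Fin n) (Fin n) A) * (u : Matrix (Fin n) (Fin n) A) =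
        (u : Matrix (Fin n) (Fin n) A) * ((ρ x : Matrix (Fin n) (Fin n) A).map α)) :
    Realized C g E := by
  have hEf : (E ∪ (fun x => g * x * g⁻¹) '' E).Finite := hE.union (hE.image _)
  -- entries
  let ent : (Matrix (Fin n) (Fin n) A)ˣ → Set A := fun v =>
    (Set.range fun p : Fin n × Fin n => (v : Matrix _ _ A) p.1 p.2) ∪
    (Set.range fun p : Fin n × Fin n => ((v⁻¹ : (Matrix (Fin n) (Fin n) A)ˣ) : Matrix _ _ A) p.1 p.2)
  have hentf : ∀ v, (ent v).Finite := fun v => (Set.finite_range _).union (Set.finite_range _)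
  have hent : ∀ (v : (Matrix (Fin n) (Fin n) A)ˣ) (B : Subalgebra R A), ent v ⊆ (B : Set A) →
      v ∈ EB n B := fun v B hB => ⟨fun a b => hB (Or.inl ⟨(a, b), rfl⟩),
    fun a b => hB (Or.inr ⟨(a, b), rfl⟩)⟩
  let S : Set A := ⋃ x ∈ {x : ↥(Subgroup.closure (E ∪ (fun x => g * x * g⁻¹) '' E)) |
    (x : G) ∈ E ∪ (fun x => g * x * g⁻¹) '' E}, ent (ρ x)
  have hS : S.Finite := by
    refine Set.Finite.biUnion ?_ fun x _ => hentf _
    exact hEf.preimage Subtype.val_injective.injOn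
  obtain ⟨B, hBT, hSB⟩ := hT.cover S hS
  obtain ⟨s1, hs1, hs1'⟩ := fin_sub hT hBT
  obtain ⟨s2, hs2, hs2'⟩ := fin_sub hT (hα B hBT)
  obtain ⟨B', hB'T, hB'⟩ := hT.cover (s1 ∪ s2 ∪ ent u) ((hs1.union hs2).union (hentf u))
  have hBB' : B ≤ B' := hs1' B' (fun x hx => hB' (Or.inl (Or.inl hx)))
  have hαB' : B.map (α : A →ₐ[R] A) ≤ B' := hs2' B' (fun x hx => hB' (Or.inl (Or.inr hx)))
  have huB' : u ∈ EB n B' := hent u B' (fun x hx => hB' (Or.inr hx))
  obtain ⟨θ, hθ⟩ := exists_theta B B' α hBB' hαB' (hT.fin B hBT) (hT.free B hBT)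
    (hT.ovr B hBT B' hB'T hBB') (hT.ovr _ (hα B hBT) B' hB'T hαB')
  have hBfin := hT.fin B' hB'T
  have hBfree := hT.free B' hB'T
  have hP : C (Module.End R (Fin n → B'))ˣ := gl_free hC hR _
  let F : EB n B' →* (Module.End R (Fin n → B'))ˣ := (act n B').toHomUnits
  have hF : Function.Injective F := by
    intro a b hab
    exact act_inj B' (congrArg Units.val hab)
  have hmemB : ∀ x : ↥(Subgroup.closure (E ∪ (fun x => g * x * g⁻¹) '' E)),
      (x : G) ∈ E ∪ (fun x => g * x * g⁻¹) '' E → ρ x ∈ EB n B := by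
    intro x hx
    exact hent _ B (fun y hy => hSB (Set.mem_biUnion (show x ∈ {x :
      ↥(Subgroup.closure (E ∪ (fun x => g * x * g⁻¹) '' E)) | (x : G) ∈
      E ∪ (fun x => g * x * g⁻¹) '' E} from hx) hy))
  have hEBle : EB n B ≤ EB n B' := fun v hv => ⟨fun a b => hBB' (hv.1 a b),
    fun a b => hBB' (hv.2 a b)⟩
  have hcl : Subgroup.closure (E ∪ (fun x => g * x * g⁻¹) '' E) ≤
      ((EB n B').comap ρ).map (Subgroup.closure (E ∪ (fun x => g * x * g⁻¹) '' E)).subtype := by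
    rw [Subgroup.closure_le]
    intro x hx
    exact ⟨⟨x, Subgroup.subset_closure hx⟩, hEBle (hmemB ⟨x, Subgroup.subset_closure hx⟩ hx), rfl⟩
  have hres : ∀ x : Subgroup.closure (E ∪ (fun x => g * x * g⁻¹) '' E), ρ x ∈ EB n B' := by
    intro x
    obtain ⟨y, hy, hyx⟩ := hcl x.2
    have h1 : y = x := Subtype.ext hyx
    rw [← h1]
    exact hy
  let res : Subgroup.closure (E ∪ (fun x => g * x * g⁻¹) '' E) →* EB n B' :=
    MonoidHom.mk' (fun x => ⟨ρ x, hres x⟩) (fun x y => by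
      apply Subtype.ext
      show ρ (x * y) = _
      rw [map_mul]
      rfl)
  have hresi : Function.Injective res := by
    intro x y hxy
    have h1 : ρ x = ρ y := congrArg Subtype.val hxy
    exact hρ h1
  let Θ : (Fin n → B') ≃ₗ[R] (Fin n → B') := LinearEquiv.piCongrRight fun _ => θ
  let Θu : (Module.End R (Fin n → B'))ˣ := ⟨Θ.toLinearMap, Θ.symm.toLinearMap, by
    apply LinearMap.ext
    intro w
    exact Θ.apply_symm_apply w, by
    apply LinearMap.ext
    intro w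
    exact Θ.symm_apply_apply w⟩
  refine ⟨(Module.End R (Fin n → B'))ˣ, inferInstance, F.comp res, F ⟨u, huB'⟩ * Θu, hP,
    hF.comp hresi, ?_⟩
  intro x y hx hy
  rw [eq_mul_inv_iff_mul_eq]
  apply Units.ext
  apply LinearMap.ext
  intro w
  funext a
  apply Subtype.ext
  have hxN : ρ x ∈ EB n B := hmemB _ (Or.inl hx)
  have key := hu x y hx hy
  -- the values of `Θ`
  have h1 : ∀ (w : Fin n → B') (c : Fin n), ((Θ w c : B') : A) = (θ (w c) : B') := fun w c => rfl
  have h2 : ∀ c : Fin n, ((Θ (act n B' (res x) w) c : B') : A) =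
      ∑ b, α ((ρ x : Matrix (Fin n) (Fin n) A) c b) * ((θ (w b) : B') : A) := by
    intro c
    rw [h1]
    have h3 : (act n B' (res x) w c : B') = ∑ b, (⟨(ρ x :
        Matrix (Fin n) (Fin n) A) c b, (hres x).1 c b⟩ : B') * w b := by
      apply Subtype.ext
      rw [act_apply]
      push_cast
      rfl
    rw [h3, map_sum]
    push_cast
    refine Finset.sum_congr rfl fun b _ => ?_
    exact hθ ⟨_, hxN.1 c b⟩ (w b) _ rfl
  show ((act n B' (res y) (act n B' ⟨u, huB'⟩ (Θ w)) a : B') : A) =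
    ((act n B' ⟨u, huB'⟩ (Θ (act n B' (res x) w)) a : B') : A)
  have h4 : ((act n B' (res y) (act n B' ⟨u, huB'⟩ (Θ w)) a : B') : A) =
      (((ρ y : Matrix (Fin n) (Fin n) A) *
        (u : Matrix (Fin n) (Fin n) A)).mulVec (fun b => ((Θ w b : B') : A))) a := by
    rw [← Matrix.mulVec_mulVec]
    rfl
  have h5 : ((act n B' ⟨u, huB'⟩ (Θ (act n B' (res x) w)) a : B') : A) =
      (((u : Matrix (Fin n) (Fin n) A) * ((ρ x :
        Matrix (Fin n) (Fin n) A).map α)).mulVec (fun b => ((Θ w b : B') : A))) a := by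
    rw [← Matrix.mulVec_mulVec]
    have h6 : (((ρ x : Matrix (Fin n) (Fin n) A).map α).mulVec
        (fun b => ((Θ w b : B') : A))) = fun c => ((Θ (act n B' (res x) w) c : B') : A) := by
      funext c
      rw [h2]
      rfl
    rw [h6]
    rfl
  rw [h4, h5, key]

end Q27.SMF
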